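import Pool.Agent.Lib.MP_0da313_nt.CM.Defs

set_option autoImplicit false

/-!
Project TC (two clusters of primes on the line `x + y = n`, for almost all `n`): the definitions and the
interface between the analytic part and the sieve part.

`F : CM.Fam ι D` is a family of linear forms `F.L n l x = F.u l * x + (F.b l * n + F.c l)`, `l : Option ι`.
`thP` is `log` on the primes, `CM.wd lam X` the window `tri (lam * log (k / X))`.
-/

namespace Pool.Agent.TC

open Finset Filter Polynomial
open Pool.Agent.MP89da58 (tri kapD)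
open Pool.Agent.CH (thP)
open Pool.Agent.CM (wd Fam)

open Classical in
/-- The rough model of the primes: `∏_{p ≤ w} (1 - 1/p)^{-1}` times the indicator function of the
integers without prime factors `≤ w`. (`Lw w 0 = 0` for `w ≥ 2`.) -/
noncomputable def Lw (w k : ℕ) : ℝ :=
  if ∀ p : ℕ, p.Prime → p ≤ w → ¬ p ∣ k then (kapD w)⁻¹ else 0

/-- The limit of the rough model: `(log N)^B1`. -/
noncomputable def wN (B1 N : ℕ) : ℕ := ⌊(Real.log N) ^ B1⌋₊

variable {ι : Type} [Fintype ι] [DecidableEq ι] {D : ℕ}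

/-- The parameter of the window of the form `l` for the block `(N, N + N/k]`: its logarithmic half width
is `|u| hw / (4 t)`, so that it is contained in `|x - xi n| ≤ hw n / 2`. -/
noncomputable def la4 (F : Fam ι D) (l : Option ι) : ℝ := 4 * F.t l / (|(F.u l : ℝ)| * F.hw)

/-- The windowed sequence of the form `l` for the block of `N`. -/
noncomputable def sq (F : Fam ι D) (N : ℕ) (l : Option ι) (k : ℕ) : ℝ :=
  thP k * wd (la4 F l) (F.t l * N) k

open Classical in
/-- The relevant classes modulo `q`: the residues `c` such that `q` divides `G(c)` and the values of the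
forms `i` and `j` at `c` are coprime to `q`. -/
noncomputable def Cq (F : Fam ι D) (n q : ℕ) (i j : Option ι) : Finset ℕ :=
  (range q).filter (fun c => (q : ℤ) ∣ (F.G n).eval (c : ℤ) ∧
    IsCoprime (q : ℤ) (F.L n i c * F.L n j c))

/-- The difference between the prime sum and the model sum over a class. -/
noncomputable def Er (F : Fam ι D) (N w n : ℕ) (i j : Option ι) (q c : ℕ) : ℝ :=
  ∑ x ∈ (Ioo 0 n).filter (fun x => x ≡ c [MOD q]),
    sq F N j (F.L n j x).toNat * (thP (F.L n i x).toNat - Lw w (F.L n i x).toNat)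

/-- The sum over the moduli. -/
noncomputable def ErS (F : Fam ι D) (N w n b : ℕ) (i j : Option ι) : ℝ :=
  ∑ q ∈ (Icc 1 ⌊(N : ℝ) ^ (1 / 1000 : ℝ)⌋₊).filter Squarefree, (b : ℝ) ^ q.primeFactors.card *
    ∑ c ∈ Cq F n q i j, |Er F N w n i j q c|

/-- `G n` modulo `q` only depends on `n` modulo `q`. -/
def Per (F : Fam ι D) : Prop := ∀ n n' q : ℕ, F.N0 ≤ n → F.N0 ≤ n' → n ≡ n' [MOD q] → ∀ x : ℤ,
  (q : ℤ) ∣ (F.G n).eval x - (F.G n').eval x

/-- The blocks `(N, N + N/k]` are short with respect to the windows. -/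
def Blk (F : Fam ι D) (k : ℕ) : Prop := 1 ≤ k ∧ ∀ l, 8 * F.t l ≤ k * (|(F.u l : ℝ)| * F.hw)

open Classical in
/-- THE INTERFACE: the statement which the analytic part has to prove. -/
def R_EX : Prop := ∀ (ι : Type) [Fintype ι] [DecidableEq ι] (D : ℕ) (F : Fam ι D), Per F →
  ∀ (i j : Option ι), F.u i * F.b j ≠ F.u j * F.b i → ∀ (k : ℕ), Blk F k → ∀ (A b : ℕ),
  ∃ B0 : ℕ, ∀ B1 : ℕ, B0 ≤ B1 → ∀ᶠ N : ℕ in atTop,
  (((Ioc N (N + N / k)).filter (fun n =>
    N / (Real.log N) ^ A < ErS F N (wN B1 N) n b i j)).card : ℝ) ≤ N / (Real.log N) ^ A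

end Pool.Agent.TC
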