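import Pool.Agent.Lib.MP_0da313_nt.TC.M

set_option autoImplicit false

/-!
Project TC, section F: the system of weights for two clusters, the final count for a good `n`, the blocks,
and the final theorem.

Notation for the docstrings: `z = z0 D n'`, `κ = kapD z`, `V = F.V n n'`, `K1 = |ι₁|`, `K2 = |ι₂|`, `L l x = F.L n l x`.
-/

namespace Pool.Agent.TC.F

open Finset Filter Polynomial
open ArithmeticFunction (cardFactors)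
open Pool.Agent.MP89da58 (bil pw nn supp part kapD tri)
open Pool.Agent.MT (PJf ZI Dl)
open Pool.Agent.BVall (om rhoW PK lev RepB Dens)
open Pool.Agent.Lib.MP_0da313_nt (Admissible lineRestrict val singV W)
open Pool.Agent.CH (thP)
open Pool.Agent.CM (wd Fam z0)
open Pool.Agent.CM.F (Pre)
open Pool.Agent.TC.W (qf ten)
open Pool.Agent.TC.M (DE Par2 Wt2 Near)

/-! ### The system of weights -/

/-- The system of weights for two clusters: `g` are the full weights, `g1 i` those without the form `i`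
of the first cluster, `g2 j` those without the form `j` of the second cluster, `g12 i j` those without
both. `e` is a bound for the errors. -/
structure Sys {ι ι₁ ι₂ : Type} [Fintype ι] [DecidableEq ι] [Fintype ι₁] [DecidableEq ι₁] [Fintype ι₂]
    [DecidableEq ι₂] {D : ℕ} (F : Fam ι D) (em : ι₁ ⊕ ι₂ → Option ι) (n B : ℕ) (P : Finset ℕ)
    (κn e τ₁ τ₂ : ℝ) (g : (PJf P → Option (ι₁ ⊕ ι₂)) → ℝ)
    (g1 : ι₁ → (PJf P → Option (ι₁ ⊕ ι₂)) → ℝ) (g2 : ι₂ → (PJf P → Option (ι₁ ⊕ ι₂)) → ℝ)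
    (g12 : ι₁ → ι₂ → (PJf P → Option (ι₁ ⊕ ι₂)) → ℝ) (a₁ a₂ β₁ β₂ : ℝ) : Prop where
  bd : ∀ α, |g α| ≤ B
  w1 : ∀ i, Wt2 n B em (em (Sum.inl i)) (em (Sum.inl i)) (g1 i)
  w2 : ∀ j, Wt2 n B em (em (Sum.inr j)) (em (Sum.inr j)) (g2 j)
  w12 : ∀ i j, Wt2 n B em (em (Sum.inl i)) (em (Sum.inr j)) (g12 i j)
  l1 : ∀ i (x : ℤ), (∀ p ∈ P, ¬ (p : ℤ) ∣ F.L n (em (Sum.inl i)) x) →
    ZI (DE F em n P) g x = ZI (DE F em n P) (g1 i) x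
  l2 : ∀ j (x : ℤ), (∀ p ∈ P, ¬ (p : ℤ) ∣ F.L n (em (Sum.inr j)) x) →
    ZI (DE F em n P) g x = ZI (DE F em n P) (g2 j) x
  l12 : ∀ i j (x : ℤ), (∀ p ∈ P, ¬ (p : ℤ) ∣ F.L n (em (Sum.inl i)) x) →
    (∀ p ∈ P, ¬ (p : ℤ) ∣ F.L n (em (Sum.inr j)) x) →
    ZI (DE F em n P) g x = ZI (DE F em n P) (g12 i j) x
  a1 : 1 ≤ a₁
  a2 : 1 ≤ a₂
  b1 : Fintype.card ι₁ * (τ₁ * κn * a₁) ≤ β₁
  b2 : Fintype.card ι₂ * (τ₂ * κn * a₂) ≤ β₂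
  s12 : β₁ * β₂ - e ≤ ∑ i, ∑ j, qf (g12 i j)
  s1 : ∑ i, qf (g1 i) ≤ β₁ * (2 * a₂) + e
  s2 : ∑ j, qf (g2 j) ≤ 2 * a₁ * β₂ + e

/-- Existence of the system of weights. -/
def R_sys : Prop := ∃ c : ℝ, 0 < c ∧ c ≤ 1 ∧ ∀ (ι₁ ι₂ : Type) [Fintype ι₁] [DecidableEq ι₁]
  [Nonempty ι₁] [Fintype ι₂] [DecidableEq ι₂] [Nonempty ι₂], ∃ M : ℕ, 1 ≤ M ∧ ∀ B0 : ℕ, 1 ≤ B0 →
  ∃ B : ℕ, 1 ≤ B ∧ ∀ (D A : ℕ) (ι : Type) [Fintype ι] [DecidableEq ι] (F : Fam ι D)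
    (em : ι₁ ⊕ ι₂ → Option ι), Function.Injective em → 1 ≤ D → ∀ᶠ n : ℕ in atTop, ∀ n' : ℕ,
  n ≤ z0 D n' ^ B0 → (lev (2 * D) n' : ℝ) ^ (3 * M) ≤ (n : ℝ) ^ (1 / 10000 : ℝ) →
  ∃ (P : Finset ℕ) (τ₁ τ₂ : ℝ) (g : (PJf P → Option (ι₁ ⊕ ι₂)) → ℝ)
    (g1 : ι₁ → (PJf P → Option (ι₁ ⊕ ι₂)) → ℝ) (g2 : ι₂ → (PJf P → Option (ι₁ ⊕ ι₂)) → ℝ)
    (g12 : ι₁ → ι₂ → (PJf P → Option (ι₁ ⊕ ι₂)) → ℝ) (a₁ a₂ β₁ β₂ : ℝ),
    Par2 F B0 n n' P ∧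
    Sys F em n B P (kapD (z0 D n') * Real.log n) (1 / (Real.log n) ^ A) τ₁ τ₂ g g1 g2 g12 a₁ a₂
      β₁ β₂ ∧
    (c / (Fintype.card ι₁ * B0) ≤ τ₁ ∧ τ₁ ≤ 1 ∧
      c * Real.log (Fintype.card ι₁) ≤ Fintype.card ι₁ * τ₁) ∧
    (c / (Fintype.card ι₂ * B0) ≤ τ₂ ∧ τ₂ ≤ 1 ∧
      c * Real.log (Fintype.card ι₂) ≤ Fintype.card ι₂ * τ₂)

/-- [TC sys] (uses W wpg, tz, tsup, bt, CM W pr, CM L P) Proof: `c` from `R_wpg`, `M_s` from `R_wpg` for `ι_s`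
(`s = 1, 2`), `M = M1 M2`. Let `y0 = ⌊n^(1/(10000 M))⌋₊`, `R = y0^M ≤ n^(1/10000)`. As `z ≤ lev (2D) n'`
(`z0_le_lev`, `CM/P/app.lean`), `z^M ≤ lev^(3M) ≤ n^(1/10000)`, so `z ≤ y0`. `y_1 = y0^(M2)`, `y_2 = y0^(M1)`, so
`y_s^(M_s) = R`, `z ≤ y0 ≤ y_s`, and `log n ≤ 20000 M log y0 = 20000 M_s log y_s` for large `n`
(`y0 ≥ n^(1/(10000M)) - 1 ≥ n^(1/(20000M))`). `P`, `Ex` from `CM.L.R_P` with `R` in place of `R`; `Par2` holds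
(`lev^3 ≤ lev^(3M)` as `lev ≥ 1`; `p ≤ R ≤ n^(1/10000)`). `R_wpg` gives `lam_s, lami_s, A_s, τ_s`,
`B = B0^(K1) * B0^(K2)`. Put `g = ten lam_1 lam_2`, `g1 i = ten (lami_1 i) lam_2`, `g2 j = ten lam_1 (lami_2 j)`,
`g12 i j = ten (lami_1 i) (lami_2 j)`, `a_s = A_s`, `β_s = ∑_i qf (lami_s i)`. `bd, w1, w2, w12` from `R_tsup` (supports
`≤ R * R ≤ n^(1/5000)`; if `g1 i α ≠ 0` then `part α (inl i) = part (fL α) i = ∅`, so `α p = some k` implies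
`k ≠ inl i`, `em k ≠ em (inl i)` by injectivity). Links: for `p ∈ P` the conditions `DE` of two different
indices exclude each other at every `x` (`Dl_cop`, `Par2.hdet`), so `R_tz` gives `ZI g x = ZI lam_1 x * ZI lam_2 x`
(with the restricted conditions) etc., and `WP2.link`. `b1`: each `qf (lami_1 i) ≥ τ₁ (κ log n) A_1` (`WP2.lo`).
`s12, s1, s2`: by `R_bt` every `qf (ten f g)` differs from `qf f * qf g` by at most
`B^2 * 9 K1 K2 (2/z) C (log n)^(3K1 + 3K2) ≤ 1/((K1 + 1) (K2 + 1) (log n)^A)` for large `n` (`z ≥ n^(1/B0)`, `R_pr`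
with `∏_j (1 + 3K x' j) ≤ ∏_{p ≤ n} (1 + 3K/(p-1))`), and `qf lam_s ≤ 2 A_s`, `β_s ≥ 0` (the `qf` are `≥ 0`: `cm_S0_qf`
in `CM/P/S0.lean`, `z ≥ K1 + K2 + 1`; or from `lo`). -/
def S_sys : Prop := W.R_wpg → W.R_tz → W.R_tsup → W.R_bt → CM.W.R_pr → CM.L.R_P → R_sys

/-! ### The numerical inequality -/

/-- The numerical inequality behind the final count. `l = log n`, `p = hw * n`, `v = V`, `k = κ`. -/
def R_nu : Prop := ∀ (D : ℕ) (K1 K2 h c1 t0 E : ℝ), 1 ≤ K1 → 1 ≤ K2 → 0 < h → 0 < c1 → 0 < t0 →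
  0 ≤ E → ∃ l0 : ℝ, ∀ (l n v k τ₁ τ₂ a₁ a₂ β₁ β₂ T T1 T2 s12 s1 s2 : ℝ), l0 ≤ l → 0 ≤ n →
  c1 / l ^ (8 * D) ≤ v → v ≤ 1 → 0 < k → 1 ≤ 1000 * (k * l) → t0 ≤ τ₁ → t0 ≤ τ₂ →
  τ₁ ≤ 1 → τ₂ ≤ 1 → 1 ≤ a₁ → 1 ≤ a₂ → K1 * (τ₁ * (k * l) * a₁) ≤ β₁ →
  K2 * (τ₂ * (k * l) * a₂) ≤ β₂ →
  β₁ * β₂ - 1 / l ^ (8 * D + 8) ≤ s12 → s1 ≤ β₁ * (2 * a₂) + 1 / l ^ (8 * D + 8) →
  s2 ≤ 2 * a₁ * β₂ + 1 / l ^ (8 * D + 8) →
  1 / 20 * (h * n * (v / k ^ 2)) * s12 - E * (n / l ^ (8 * D + 8)) ≤ T →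
  T1 ≤ 5 * (h * n * (v / k)) * s1 + E * (n / l ^ (8 * D + 8)) →
  T2 ≤ 5 * (h * n * (v / k)) * s2 + E * (n / l ^ (8 * D + 8)) →
  1 / 50 * (h * n * v) * (K1 * K2 * (τ₁ * τ₂) * l ^ 2) ≤
    T - K1 * τ₁ * l / 1000 * T2 - K2 * τ₂ * l / 1000 * T1

/-- [TC nu] Proof: (`T2` is the upper bound for the sum over the second cluster, in which `2 a₁ β₂` occurs.)
Let `Ψ = h n v/k^2 ≥ 0`, `ρ₁ = K1 τ₁ l/1000`, `ρ₂ = K2 τ₂ l/1000`, `ε = 1/l^(8D+8)`. Main terms: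
`ρ₁ * 5 Ψ k * 2 a₁ β₂ = Ψ β₂ * (K1 τ₁ (k l) a₁)/100 ≤ Ψ β₁ β₂/100`, in the same way
`ρ₂ * 5 Ψ k * β₁ 2 a₂ ≤ Ψ β₁ β₂/100`, so the main part is `≥ (1/20 - 2/100) Ψ β₁ β₂ = (3/100) Ψ β₁ β₂`, and
`Ψ β₁ β₂ ≥ Ψ (k l)^2 K1 K2 τ₁ τ₂ = h n v K1 K2 τ₁ τ₂ l^2 =: R`. Errors: `(1/20) Ψ ε + E n ε
+ (ρ₁ + ρ₂) (5 Ψ k ε + E n ε)`; `1/k ≤ 1000 l`, `v ≤ 1`, so `Ψ ≤ h n 10^6 l^2`, `Ψ k ≤ 1000 h n l`,
`ρ₁ + ρ₂ ≤ (K1 + K2) l/1000`: the errors are at most `C n l^2 ε`, `C = C(h, K1, K2, E)`, while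
`R ≥ h n c1 l^(-8D) K1 K2 t0^2 l^2`; so they are `≤ (1/100) R` if `l^(8) ≥ 100 C/(h c1 t0^2)`. -/
def S_nu : Prop := R_nu

/-! ### The final count for a good `n` -/

open Classical in
/-- The number of good points for a good `n`. -/
def R_cn2 : Prop := ∃ c0 : ℝ, 0 < c0 ∧ ∀ (ι₁ ι₂ : Type) [Fintype ι₁] [DecidableEq ι₁] [Nonempty ι₁]
  [Fintype ι₂] [DecidableEq ι₂] [Nonempty ι₂], ∃ M : ℕ, 1 ≤ M ∧ ∀ (D B0 : ℕ) (h : ℝ), 1 ≤ D →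
  1 ≤ B0 → 0 < h → ∃ (c : ℝ) (b A : ℕ), 0 < c ∧ ∀ (ι : Type) [Fintype ι] [DecidableEq ι]
    (F : Fam ι D), F.hw = h → ∀ em : ι₁ ⊕ ι₂ → Option ι, Function.Injective em →
  ∀ (k B1 : ℕ), Blk F k → 3 ≤ B1 → ∀ᶠ N : ℕ in atTop, ∀ n ∈ Ioc N (N + N / k),
  (∀ (i : ι₁) (j : ι₂), ErS F N (wN B1 N) n b (em (Sum.inl i)) (em (Sum.inr j)) ≤
    N / (Real.log N) ^ A) →
  ∀ n' : ℕ, n ≤ z0 D n' ^ B0 → (lev (2 * D) n' : ℝ) ^ (3 * M) ≤ (n : ℝ) ^ (1 / 10000 : ℝ) →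
  (2 : ℝ) ^ (2 * D + n') ≤ Real.log n →
  c * (n * F.V n n') ≤ (((Ioo 0 n).filter (fun x : ℕ => F.Rg n (z0 D n') x ∧
    (c0 * Real.log (Fintype.card ι₁) ≤
      ((univ.filter (fun i : ι₁ => (F.L n (em (Sum.inl i)) x).natAbs.Prime)).card : ℝ) ∧
    1 ≤ (univ.filter (fun i : ι₁ => (F.L n (em (Sum.inl i)) x).natAbs.Prime)).card) ∧
    (c0 * Real.log (Fintype.card ι₂) ≤
      ((univ.filter (fun j : ι₂ => (F.L n (em (Sum.inr j)) x).natAbs.Prime)).card : ℝ) ∧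
    1 ≤ (univ.filter (fun j : ι₂ => (F.L n (em (Sum.inr j)) x).natAbs.Prime)).card))).card : ℝ)

/-- [TC cn2] (uses sys, nu, M loc, T2, U1, wm2, dn2, CM S pre) Proof: `c'` from `R_sys`, `c0 = c'/2000`, `M` from `R_sys`; given
`B0`: `B` from `R_sys`. `b = 6 (K1 + K2)` (the cardinality of `ι₁ ⊕ ι₂` is `K1 + K2`), `A = 8D + 8`. `Fp, Fm` from
`CM.S.R_pre` with `K = 2D` (this is `Pre D n' Fp Fm`, as in `CM/P/cnt.lean`). For large `N` and `n ∈ (N, N + N/k]`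
(`N ≥ n/2`) let `P, τ, g, ..` be from `R_sys` (with `A = 8D + 8`), and `X` = the set of the `x ∈ Ioo 0 n` with `Rg` and
`Near`. `θ_l(x) = thP (L_l x).toNat`, `a(x) = ∑_i θ_(inl i)(x)`, `b(x) = ∑_j θ_(inr j)(x)`, `Z = ZI (DE F em n P) g`.
If `x ∈ X` and `θ_l(x) ≠ 0` then `L_l(x)` is a prime `≥ n/C > n^(1/10000)` (`R_loc`), so no `p ∈ P` divides it, and
the links of `Sys` apply. Hence with `T = ∑_{x ∈ X} a b Z^2 = ∑_{i,j} ∑_x θ_i θ_j ZI (g12 i j)^2`, by `R_T2` (exponent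
`8D + 9`, and `ErS ≤ N/(log N)^(8D+8) ≤ 2^(8D+8) n/(log n)^(8D+8)`): `T ≥ (1/20) (hw n V/κ^2) ∑ qf (g12 i j) - E n/l^(8D+8)`;
with `T1 = ∑_X a Z^2` and `T2 = ∑_X b Z^2`, by `R_U1`: `T1 ≤ 5 (hw n V/κ) ∑_i qf (g1 i) + E ..`,
`T2 ≤ 5 (hw n V/κ) ∑_j qf (g2 j) + E ..`, with a constant `E` (depending on `K1, K2, B, D`). The hypotheses of `R_nu`
(`t0 = c'/(max K1 K2 * B0)`, `l = log n`): `V ≥ c1/(log n)^(8D)` (as in `CM/P/cnt.lean`, `W_ge`, it needs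
`2^(2D+n') ≤ log n`), `V ≤ 1`, `1 ≤ 1000 κ log z ≤ 1000 κ log n` (`mertens`, `MT/Mertens.lean`). So with `ρ₁ = K1 τ₁ l/1000`,
`ρ₂ = K2 τ₂ l/1000`: `T - ρ₁ T2 - ρ₂ T1 ≥ (1/50) hw n V K1 K2 τ₁ τ₂ l^2`. Pointwise, `a, b ≥ 0`:
`(a b - ρ₁ b - ρ₂ a) Z^2 ≤ [a > ρ₁, b > ρ₂] a b Z^2` (if `a ≤ ρ₁` then `a b ≤ ρ₁ b`; if `b ≤ ρ₂` then `a b ≤ ρ₂ a`). By
`R_wm2`, `a ≤ 2 K1 l`, `b ≤ 2 K2 l`, `Z^2 ≤ Zm` (a constant), so the number of the `x ∈ X` with `a > ρ₁`, `b > ρ₂` is at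
least `(1/200) hw τ₁ τ₂ n V/Zm ≥ c n V`, `c = h t0^2/(200 Zm)`. For such an `x`: the number of `i` with
`θ_(inl i) ≠ 0` is at least `ρ₁/(2 l) = K1 τ₁/2000 ≥ c0 log K1`, and at least `1` as `a > 0`; `θ ≠ 0` means that
`(L x).toNat` is a prime, which is `(L x).natAbs` as `L x > 0`. The same for the second cluster. -/
def S_cn2 : Prop := R_sys → R_nu → M.R_loc → M.R_T2 → M.R_U1 → M.R_wm2 → M.R_dn2 → CM.S.R_pre → R_cn2

/-! ### Families and blocks -/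

/-- The coefficient of `x`. -/
noncomputable def cx (f : MvPolynomial (Fin 2) ℤ) : ℤ := f.coeff (Finsupp.single 0 1)

/-- The coefficient of `y`. -/
noncomputable def cy (f : MvPolynomial (Fin 2) ℤ) : ℤ := f.coeff (Finsupp.single 1 1)

/-- Linear polynomials. -/
def R_cf : Prop := ∀ f : MvPolynomial (Fin 2) ℤ, f.totalDegree ≤ 1 → ∀ x y : ℤ,
  val f x y = cx f * x + cy f * y + f.coeff 0

/-- [TC cf] Proof: compare `val_linear` (in `Final.lean` or `Poly.lean`). For a monomial `s` in the support,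
`s 0 + s 1 ≤ 1` (`MvPolynomial.le_totalDegree`), so `s` is `0`, `single 0 1` or `single 1 1`; `val` is
`MvPolynomial.eval ![x, y]`, `MvPolynomial.eval_eq'`. -/
def S_cf : Prop := R_cf

/-- Two affine forms with the same absolute values. -/
def R_sg : Prop := ∀ (u b c α β γ : ℤ) (N0 : ℕ),
  (∀ n : ℕ, N0 ≤ n → ∀ x : ℤ, (u * x + (b * n + c)).natAbs = (α * x + β * (n - x) + γ).natAbs) →
  (u = α - β ∧ b = β) ∨ (u = -(α - β) ∧ b = -β)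

/-- [TC sg] Proof: the squares agree: `(u x + b n + c)^2 = ((α - β) x + β n + γ)^2` for all integers `x` and all
`n ≥ N0`; compare the coefficients of `x^2`, `x n`, `n^2` (take finite differences, e.g. the values at
`x = 0, ±1`, `n = N0, N0 + 1, N0 + 2`): `u^2 = (α-β)^2`, `u b = (α - β) β`, `b^2 = β^2`. -/
def S_sg : Prop := R_sg

/-- `∏ lineRestrict (f k) n` modulo `q` only depends on `n` modulo `q`. -/
def R_pe : Prop := ∀ (m : ℕ) (f : Fin m → MvPolynomial (Fin 2) ℤ) (n n' q : ℕ), n ≡ n' [MOD q] →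
  ∀ x : ℤ, (q : ℤ) ∣ (∏ k, lineRestrict (f k) n).eval x - (∏ k, lineRestrict (f k) n').eval x

/-- [TC pe] Proof: `(lineRestrict f n).eval x = val f x (n - x)` (`eval_lineRestrict`), and
`val f x y ≡ val f x y' (mod q)` if `y ≡ y'` (`MvPolynomial.eval` and `Int.ModEq`, by induction on `f`, or map to
`ZMod q`); products of congruent numbers are congruent. -/
def S_pe : Prop := R_pe

open Classical in
/-- From blocks to initial segments. -/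
def R_bk : Prop := ∀ (S : Set ℕ) (k : ℕ), 1 ≤ k →
  (∀ A : ℕ, ∀ᶠ N : ℕ in atTop,
    (((Ioc N (N + N / k)).filter (fun n => n ∈ S)).card : ℝ) ≤ N / (Real.log N) ^ A) →
  ∀ A : ℕ, ∀ᶠ N : ℕ in atTop,
    (((Icc 1 N).filter (fun n => n ∈ S)).card : ℝ) ≤ N / (Real.log N) ^ A

/-- [TC bk] Proof: let `N` be large, `T = ⌈sqrt N⌉₊`, `ε = 2^(A+1)/(log N)^(A+1)`; for `T ≤ M ≤ N` the block hypothesis
with `A + 1` says that `(M, M + M/k]` contains at most `M/(log M)^(A+1) ≤ ε M` elements of `S`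
(`log M ≥ (log N)/2`). Claim: for `1 ≤ M ≤ N` the number of elements of `S` in `[1, M]` is at most
`2 T + 16 k ε M` (strong induction). For `M ≤ 2 T` this is clear. For `M > 2 T` (large, so `M ≥ 100 k`) let
`M' = M - M/(4k)` (natural division): `M' ≥ M/2 ≥ T`, `M' + M'/k ≥ M` (`M'/k ≥ (3/4) M/k - 1 ≥ M/(4k)`), so `(M', M]` is
contained in the block of `M'`: at most `ε M'` elements; and `M' ≤ M - M/(4k) + 1 ≤ M (1 - 1/(8k))`, so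
`16 k ε M' + ε M' ≤ 16 k ε M (1 - 1/(8k)) + ε M ≤ 16 k ε M - 2 ε M + ε M`. Finally `2T + 16 k ε N ≤ N/(log N)^A`. -/
def S_bk : Prop := R_bk

/-! ### The final theorem -/

open Classical in
/-- The final theorem. -/
def R_fin2 : Prop := ∃ c0 : ℝ, 0 < c0 ∧ ∀ m d : ℕ, 1 ≤ m → 1 ≤ d → ∃ (B : ℕ) (c : ℝ), 0 < c ∧
  ∀ f : Fin m → MvPolynomial (Fin 2) ℤ, Admissible f → (∀ k, (f k).totalDegree ≤ d) →
  ∀ I J : Finset (Fin m), I.Nonempty → J.Nonempty →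
  (∀ k ∈ I, (f k).totalDegree ≤ 1) → (∀ k ∈ J, (f k).totalDegree ≤ 1) →
  (∀ k ∈ I, ∀ l ∈ I, k ≠ l → f k ≠ f l ∧ f k ≠ - f l) →
  (∀ k ∈ J, ∀ l ∈ J, k ≠ l → f k ≠ f l ∧ f k ≠ - f l) →
  (∀ i ∈ I, ∀ j ∈ J, cx (f i) * cy (f j) ≠ cx (f j) * cy (f i)) →
  ∀ A : ℕ, ∀ᶠ N : ℕ in atTop, (((Icc 1 N).filter (fun n : ℕ => ¬ (c * (n * singV f n) ≤
    (Set.ncard {x : ℕ | 0 < x ∧ x < n ∧
      (c0 * Real.log I.card ≤
          ((I.filter (fun k => (val (f k) x ((n : ℤ) - x)).natAbs.Prime)).card : ℝ) ∧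
        1 ≤ (I.filter (fun k => (val (f k) x ((n : ℤ) - x)).natAbs.Prime)).card) ∧
      (c0 * Real.log J.card ≤
          ((J.filter (fun k => (val (f k) x ((n : ℤ) - x)).natAbs.Prime)).card : ℝ) ∧
        1 ≤ (J.filter (fun k => (val (f k) x ((n : ℤ) - x)).natAbs.Prime)).card) ∧
      ∀ k, 1 < |val (f k) x ((n : ℤ) - x)| ∧
      (∀ p : ℕ, p.Prime → (p : ℤ) ∣ val (f k) x ((n : ℤ) - x) → n < p ^ B) ∧
      cardFactors (val (f k) x ((n : ℤ) - x)).natAbs ≤ B * d} : ℝ)))).card : ℝ) ≤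
    N / (Real.log N) ^ A

/-- [TC fin2] (uses EX, cn2, cf, sg, pe, bk, CM L fam) Proof: compare `CM/P/fin.lean`. For fixed `m, d` and each of the
finitely many pairs `(I, J)` of nonempty subsets of `Fin m`: `D = m d`, `M = M_(I,J)` from `R_cn2` for
`ι₁ = {k // k ∈ I}`, `ι₂ = {k // k ∈ J}`, `B_(I,J) = 128000 * (2D) * (30 M)`, `h = 1/(4000 (m+2))`, `c_(I,J), b, A0` from
`R_cn2` with `B0 = B_(I,J)`; `B = max`, `c = (1/2) min c_(I,J)`. Let `f, I, J` be as in the statement. `I` and `J` are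
disjoint (`i = j` would violate the last hypothesis). Choose `k0 ∈ J`, `I' = (I ∪ J).erase k0`, and `F` from
`CM.L.R_fam` (two members, one in `I` and one in `J`, are different up to sign: otherwise
`cx f_i = ± cx f_j`, `cy f_i = ± cy f_j` with the same sign). `em : ι₁ ⊕ ι₂ → Option {k // k ∈ I'}` sends `k ∈ I ∪ J` to
`none` if `k = k0`, else to `some k`; injective; `ix k0 (em k) = k`. `Per F`: `R_pe` (`F.G n = ∏ k, lineRestrict (f k) n`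
for `n ≥ N0`). `F.u i * F.b j ≠ F.u j * F.b i` for `i = em (inl ..)`, `j = em (inr ..)`: by the last claim of `R_fam`, `R_cf` and
`R_sg`, `F.u l = ± (cx - cy)`, `F.b l = ± cy` (same sign), so the difference is `± (cx f_i cy f_j - cx f_j cy f_i)`. Let
`k ≥ 1` be a natural number with `8 t_l ≤ k |u_l| hw` for all `l`: `Blk F k`. Let `S` be the set of the `n` for which the
asserted inequality fails. By `R_bk` it suffices to show for every `A` and all large `N`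
that `#(S ∩ (N, N + N/k]) ≤ N/(log N)^A`. Put `A' = max (A + 1) A0`; `R_EX` for every pair `(i, j)` (finitely many) with
`A'` and `b` gives `B0_(i,j)`; let `B1` be the maximum of these and `3`. For large `N` the number of `n` in the block
with `N/(log N)^(A') < ErS F N (wN B1 N) n b i j` for some pair is at most `K1 K2 N/(log N)^(A') ≤ N/(log N)^A`. For the
other `n` (all `ErS ≤ N/(log N)^(A') ≤ N/(log N)^(A0)`): `choose_levS (2D) (30 M) .. c2` (`MT/Level.lean`), applied at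
`x = n`, gives `n'` with `lev^(30M) ≤ n^(1/1000)`, so `lev^(3M) ≤ n^(1/10000)`, `n ≤ z^(B_(I,J))`, `2^(2D+n') ≤ log n`,
`c2 ≤ z`; `R_cn2` gives at least `c_(I,J) n V` points, and the end is as in `CM/P/fin.lean` (`good_of_rough`, `card_unit_le`,
`singV_le`, `W_ge`): so `n ∉ S`. The cardinalities over `{k // k ∈ I}` and over `I.filter` agree (`card_filter_sub`). -/
def S_fin2 : Prop := R_EX → R_cn2 → R_cf → R_sg → R_pe → R_bk → CM.L.R_fam → R_fin2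

end Pool.Agent.TC.F
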