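import Pool.Agent.Lib.MP_0da313_nt.TC.Defs
import Pool.Agent.Lib.MP_0da313_nt.CM.W

set_option autoImplicit false

/-!
Project TC, section W: the weights of Maynard type with a prescribed step, and the tensor product of two
systems of weights.
-/

namespace Pool.Agent.TC.W

open Finset Filter
open Pool.Agent.MP89da58 (bil pw nn supp part kapD)
open Pool.Agent.MT (PJf ZI)

/-- The quadratic form with `x' j = 1/(j-1)`. -/
noncomputable def qf {ι : Type} [Fintype ι] [DecidableEq ι] {P : Finset ℕ}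
    (g : (PJf P → Option ι) → ℝ) : ℝ := bil (fun j : PJf P => 1 / (((j : ℕ) : ℝ) - 1)) g g

/-- The weights attached to the set `P` of primes. `lami i` are the weights without the index `i`. -/
structure WP2 {ι : Type} [Fintype ι] [DecidableEq ι] (P : Finset ℕ) (Y : ℕ) (B A τ : ℝ)
    (lam : (PJf P → Option ι) → ℝ) (lami : ι → (PJf P → Option ι) → ℝ) : Prop where
  bd : ∀ α, |lam α| ≤ B
  bdi : ∀ i α, |lami i α| ≤ B
  sup : ∀ α, lam α ≠ 0 → nn (fun j : PJf P => (j : ℕ)) (supp α) ≤ Y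
  supi : ∀ i α, lami i α ≠ 0 → part α i = ∅ ∧ nn (fun j : PJf P => (j : ℕ)) (supp α) ≤ Y
  link : ∀ (i : ι) (D : PJf P → ι → ℤ → Prop) (y : ℤ), (∀ j, ¬ D j i y) →
    ZI D lam y = ZI D (lami i) y
  one : 1 ≤ A
  up : qf lam ≤ 2 * A
  lo : ∀ i, τ * A ≤ qf (lami i)

/-- Existence of the weights for a prescribed step `y`. -/
def R_wpg : Prop := ∃ c : ℝ, 0 < c ∧ c ≤ 1 ∧ ∀ (ι : Type) [Fintype ι] [DecidableEq ι] [Nonempty ι],
  ∃ M : ℕ, 1 ≤ M ∧ ∀ B0 : ℕ, 1 ≤ B0 → ∀ᶠ n : ℕ in atTop, ∀ z y : ℕ, n ≤ z ^ B0 → z ≤ y →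
  (y : ℝ) ^ M ≤ (n : ℝ) ^ (1 / 10000 : ℝ) → Real.log n ≤ 20000 * M * Real.log y →
  ∀ P Ex : Finset ℕ, (∀ p ∈ P, p.Prime ∧ z < p ∧ p ≤ y ^ M) →
  (∀ p : ℕ, p.Prime → z < p → p ≤ y ^ M → p ∈ P ∨ p ∈ Ex) → ∑ p ∈ Ex, 1 / (p : ℝ) ≤ 1 / 2 →
  ∃ (lam : (PJf P → Option ι) → ℝ) (lami : ι → (PJf P → Option ι) → ℝ) (A τ : ℝ),
    WP2 P (y ^ M) ((B0 : ℝ) ^ Fintype.card ι) A (τ * (kapD z * Real.log n)) lam lami ∧
    c / (Fintype.card ι * B0) ≤ τ ∧ τ ≤ 1 ∧ c * Real.log (Fintype.card ι) ≤ Fintype.card ι * τ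

/-- [TC wpg] (uses CM W pr, bp) Proof: this is `p_wp` (`CM/P/wp.lean`) with small changes; copy it. There
`y := ⌊n^(1/(1000M))⌋₊`, `yM M n = y^M`, and the only facts about `y` are `z ≤ y`, `y^M ≤ n^(1/1000)` and
`log n ≤ 2000 M log y` (from `size_y`); now they are hypotheses (with `1/10000 ≤ 1/1000` and `20000`). The
lower bound is stated without `V1`: `h5` in `cm_wp_num`, with the constant `10` times larger:
`m/(K * 1310720000000000) * (κ * Ln * A2 * AK) ≤ b` (`Ln ≤ 20000 M Ly`, `M ≤ 128000 K m`), so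
`τ = m'/(K * 1310720000000000) ≤ 1`, `m' = Nat.log 2 K ≤ K`, `A = A2 * AK = A2^K`. In the case `K = 1`: `lam = lami i` = the
indicator function of `fun _ => none`, `A = 1`, `τ = 1/B0`, `bil = 1`, and `κ log n ≤ B0` (`kapD_mul_log_le` and
`log n ≤ B0 log z`). Neither `S.R_v1` nor `mertens` is needed any more (in `cm_wp_num` they only served to
compare with `V1`). -/
def S_wpg : Prop := CM.W.R_pr → CM.W.R_bp → R_wpg

/-! ### The tensor product -/

/-- The first component of an assignment. -/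
def fL {J ι₁ ι₂ : Type} (α : J → Option (ι₁ ⊕ ι₂)) : J → Option ι₁ :=
  fun j => (α j).bind Sum.getLeft?

/-- The second component of an assignment. -/
def fR {J ι₁ ι₂ : Type} (α : J → Option (ι₁ ⊕ ι₂)) : J → Option ι₂ :=
  fun j => (α j).bind Sum.getRight?

/-- The tensor product of two systems of weights. -/
def ten {J ι₁ ι₂ : Type} (f : (J → Option ι₁) → ℝ) (g : (J → Option ι₂) → ℝ) :
    (J → Option (ι₁ ⊕ ι₂)) → ℝ := fun α => f (fL α) * g (fR α)

/-- The sieve sum of a tensor product is the product of the sieve sums. -/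
def R_tz : Prop := ∀ (ι₁ ι₂ J : Type) [Fintype ι₁] [DecidableEq ι₁] [Fintype ι₂] [DecidableEq ι₂]
  [Fintype J] [DecidableEq J] (D : J → ι₁ ⊕ ι₂ → ℤ → Prop) (f : (J → Option ι₁) → ℝ)
  (g : (J → Option ι₂) → ℝ) (y : ℤ), (∀ j l l', l ≠ l' → ¬ (D j l y ∧ D j l' y)) →
  ZI D (ten f g) y = ZI (fun j i => D j (Sum.inl i)) f y * ZI (fun j i => D j (Sum.inr i)) g y

/-- [TC tz] Proof: `ZI D lam y = ∑_α [dvI D y α] lam α`, `dvI D y α = ∀ j l, α j = some l → D j l y` (`MT/ExpandI.lean`).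
The map `α ↦ (fL α, fR α)` is injective, and `dvI D y α` holds iff `dvI` holds for `fL α` and `fR α` with the
restricted conditions. It is onto the pairs `(β, γ)` with `dvI` for both: for such a pair, `β j = some i` and
`γ j = some i'` would give `D j (inl i) y` and `D j (inr i') y`; so `α j := (β j).map inl <|> (γ j).map inr` is a
preimage. Expand the product by `Finset.sum_mul_sum`, and use `Finset.sum_bij_ne_zero` (or `sum_nbij'` on the
filtered sets). -/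
def S_tz : Prop := R_tz

/-- Support, size and parts of a tensor product. -/
def R_tsup : Prop := ∀ (ι₁ ι₂ : Type) [Fintype ι₁] [DecidableEq ι₁] [Fintype ι₂] [DecidableEq ι₂]
  (P : Finset ℕ) (f : (PJf P → Option ι₁) → ℝ) (g : (PJf P → Option ι₂) → ℝ) (B1 B2 : ℝ)
  (Y1 Y2 : ℕ), (∀ α, |f α| ≤ B1) → (∀ α, |g α| ≤ B2) →
  (∀ α, f α ≠ 0 → nn (fun j : PJf P => (j : ℕ)) (supp α) ≤ Y1) →
  (∀ α, g α ≠ 0 → nn (fun j : PJf P => (j : ℕ)) (supp α) ≤ Y2) →
  (∀ α, |ten f g α| ≤ B1 * B2) ∧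
  (∀ α, ten f g α ≠ 0 → nn (fun j : PJf P => (j : ℕ)) (supp α) ≤ Y1 * Y2 ∧
    f (fL α) ≠ 0 ∧ g (fR α) ≠ 0) ∧
  (∀ (α : PJf P → Option (ι₁ ⊕ ι₂)) (i : ι₁), part α (Sum.inl i) = part (fL α) i) ∧
  ∀ (α : PJf P → Option (ι₁ ⊕ ι₂)) (i : ι₂), part α (Sum.inr i) = part (fR α) i

/-- [TC tsup] Proof: `supp α` is the disjoint union of `supp (fL α)` and `supp (fR α)`, `nn` is multiplicative
(`Finset.prod_union`); the rest is by cases on `α j`. (`B1, B2 ≥ 0` as they bound absolute values.) -/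
def S_tsup : Prop := R_tsup

/-- The quadratic form of a tensor product. -/
def R_bt : Prop := ∀ (ι₁ ι₂ : Type) [Fintype ι₁] [DecidableEq ι₁] [Fintype ι₂] [DecidableEq ι₂]
  (P : Finset ℕ) (z : ℕ), 2 ≤ z → (∀ p ∈ P, z < p) → ∀ (f : (PJf P → Option ι₁) → ℝ)
  (g : (PJf P → Option ι₂) → ℝ) (B1 B2 : ℝ), (∀ α, |f α| ≤ B1) → (∀ α, |g α| ≤ B2) →
  |qf (ten f g) - qf f * qf g| ≤ (B1 * B2) ^ 2 *
    ((9 * Fintype.card ι₁ * Fintype.card ι₂ * (2 / z : ℝ)) *
      ((∏ j : PJf P, (1 + (3 * Fintype.card ι₁ : ℝ) * (1 / (((j : ℕ) : ℝ) - 1)))) *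
        ∏ j : PJf P, (1 + (3 * Fintype.card ι₂ : ℝ) * (1 / (((j : ℕ) : ℝ) - 1)))))

/-- [TC bt] Proof: `bil x f f = ∑_{α, β} f α f β ∏_j kap (x j) (α j) (β j)`. Identify the `α : PJf P → Option (ι₁ ⊕ ι₂)`
with the pairs `(α₁, α₂) = (fL α, fR α)` with disjoint supports. For `α, β` with components `(α₁, α₂), (β₁, β₂)`
call `j` double if (`α₁ j` or `β₁ j` is not `none`) and (`α₂ j` or `β₂ j` is not `none`). If there is no double `j`
then `kap (α j) (β j) = kap (α₁ j) (β₁ j) * kap (α₂ j) (β₂ j)` for all `j` (one of the two factors is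
`kap none none = 1`). If `j` is double, then either `α` or `β` is no assignment (`α₁ j, α₂ j` both not `none`), or
`kap (α j) (β j) = 0` (an index of the left type against one of the right type). So
`bil f f * bil g g - bil (ten f g) (ten f g)` is the sum over the quadruples `(α₁, β₁, α₂, β₂)` which have a
double `j` of `f α₁ f β₁ g α₂ g β₂ ∏_j kap (α₁ j) (β₁ j) ∏_j kap (α₂ j) (β₂ j)`; the products vanish unless
`compat α₁ β₁`, `compat α₂ β₂`, when they are `pw x a * pw x c`, `a = supp (join α₁ β₁)`, `c = supp (join α₂ β₂)`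
(`prod_kap_compat`, `prod_kap_not_compat`), and a double `j` is an element of `a ∩ c`. By `err_sum_leI`
(`MT/ExpandI.lean`, with `lam = 1`, `p = fun _ => 1`, `Y = 1`, so that there is no condition on the sets), applied
twice, the absolute value is at most `(B1 B2)^2 ∑_{a, c, a ∩ c ≠ ∅} (3 K1)^|a| pw x a (3 K2)^|c| pw x c`
`≤ (B1 B2)^2 ∑_j (3 K1 x j) (3 K2 x j) ∏_j (1 + 3 K1 x j) ∏_j (1 + 3 K2 x j)`
(`∑_{a ∋ j} ∏_{i ∈ a} y i ≤ y j ∏ (1 + y i)`), and `∑_j (x j)^2 ≤ ∑_{m > z} 1/(m-1)^2 ≤ 1/(z-1) ≤ 2/z`. -/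
def S_bt : Prop := R_bt

end Pool.Agent.TC.W
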