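import Pool.Agent.Lib.MP_0da313_nt.TC.Main
import Pool.Agent.Lib.MP_0da313_nt.TC.E.All

set_option autoImplicit false

/-!
Project TC: the final theorem.
-/

namespace Pool.Agent.TC

/-- The interface. -/
theorem h_EX : R_EX := E.h_EX0

end Pool.Agent.TC
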