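import Pool.Agent.Lib.MP_0da313_nt.TC.W
import Pool.Agent.Lib.MP_0da313_nt.CM.F

set_option autoImplicit false

/-!
Project TC, section M: densities, windows, the model sum, the expansion of the error, the lower bound for
the pair sums and the upper bound for the single sums.

Notation for the docstrings: `z = z0 D n'`, `κ z = kapD z = ∏_{p ≤ z} (1 - 1/p)`, `V = F.V n n'`,
`w = wN B1 N = ⌊(log N)^B1⌋₊`, `L l x = F.L n l x`, `X l = F.X n l = t l * n + c l`.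
-/

namespace Pool.Agent.TC.M

open Finset Filter Polynomial
open Pool.Agent.MP89da58 (bil pw nn supp part kapD tri)
open Pool.Agent.MT (PJf ZI Dl)
open Pool.Agent.BVall (om rhoW PK lev RepB Dens)
open Pool.Agent.Lib.MP_0da313_nt (W)
open Pool.Agent.CH (thP)
open Pool.Agent.CM (wd sA sT er Fam z0 mu CP BVc)
open Pool.Agent.CM.F (Pre)
open Pool.Agent.TC.W (qf)

/-! ### Definitions -/

/-- The local conditions of the weights; the weights are indexed by `κ`, the form of the index `k` is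
`e k`. -/
def DE {ι κ : Type} [Fintype ι] [DecidableEq ι] {D : ℕ} (F : Fam ι D) (e : κ → Option ι) (n : ℕ)
    (P : Finset ℕ) : PJf P → κ → ℤ → Prop := Dl P (fun k => F.u (e k)) (fun k => F.v n (e k))

/-- The condition at the prime `p` for the pair of forms `i`, `j` (`j` is the form which stays prime):
for `p ≤ w` the values `y` with `p ∣ G(y)`, `p ∤ L_j(y)`; for `w < p ≤ z` in addition `p ∤ L_i(y)`. -/
def Q2 {ι : Type} [Fintype ι] [DecidableEq ι] {D : ℕ} (F : Fam ι D) (n w z : ℕ) (i j : Option ι)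
    (p : ℕ) (y : ℤ) : Prop :=
  p ≤ z ∧ (p : ℤ) ∣ (F.G n).eval y ∧ ¬ (p : ℤ) ∣ F.L n j y ∧ (w < p → ¬ (p : ℤ) ∣ F.L n i y)

open Classical in
/-- The indicator function of the condition. -/
noncomputable def r2 {ι : Type} [Fintype ι] [DecidableEq ι] {D : ℕ} (F : Fam ι D) (n w z : ℕ)
    (i j : Option ι) (y : ℤ) (p : ℕ) : ℝ := if Q2 F n w z i j p y then 1 else 0

open Classical in
/-- The density of the condition. -/
noncomputable def d2 {ι : Type} [Fintype ι] [DecidableEq ι] {D : ℕ} (F : Fam ι D) (n w z : ℕ)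
    (i j : Option ι) (p : ℕ) : ℝ := rhoW (F.u j).natAbs (Q2 F n w z i j) p

/-- The parameters at `n`. -/
structure Par2 {ι : Type} [Fintype ι] [DecidableEq ι] {D : ℕ} (F : Fam ι D) (B0 n n' : ℕ)
    (P : Finset ℕ) : Prop where
  hzB : n ≤ z0 D n' ^ B0
  hlev : (lev (2 * D) n' : ℝ) ^ 3 ≤ (n : ℝ) ^ (1 / 10000 : ℝ)
  hP : ∀ p ∈ P, p.Prime ∧ z0 D n' < p ∧ (p : ℝ) ≤ (n : ℝ) ^ (1 / 10000 : ℝ)
  hdet : ∀ p ∈ P, ∀ l l', l ≠ l' → ¬ (p : ℤ) ∣ F.u l * F.v n l' - F.u l' * F.v n l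

/-- Weights without the forms `i`, `j`. -/
structure Wt2 {ι κ : Type} [Fintype κ] [DecidableEq κ] {P : Finset ℕ} (n B : ℕ) (e : κ → Option ι)
    (i j : Option ι) (g : (PJf P → Option κ) → ℝ) : Prop where
  bd : ∀ α, |g α| ≤ B
  sup : ∀ α, g α ≠ 0 → ((nn (fun j : PJf P => (j : ℕ)) (supp α) : ℕ) : ℝ) ≤ (n : ℝ) ^ (1 / 5000 : ℝ)
  ne : ∀ α, g α ≠ 0 → ∀ p k, α p = some k → e k ≠ i ∧ e k ≠ j

/-- The parameter of the wide window of the form `l`. -/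
noncomputable def la5 {ι : Type} [Fintype ι] [DecidableEq ι] {D : ℕ} (F : Fam ι D)
    (l : Option ι) : ℝ := F.t l / (|(F.u l : ℝ)| * F.hw)

/-- The points near the centre. -/
def Near {ι : Type} [Fintype ι] [DecidableEq ι] {D : ℕ} (F : Fam ι D) (n : ℕ) (x : ℤ) : Prop :=
  |(x : ℝ) - F.xi * n| ≤ F.hw * n / 2

/-! ### Location of the windows -/

/-- Location of the points and of the wide windows. -/
def R_loc : Prop := ∀ (ι : Type) [Fintype ι] [DecidableEq ι] (D : ℕ) (F : Fam ι D),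
  (∀ l, 0 < F.t l ∧ 1000 ≤ la5 F l ∧ 4000 ≤ la4 F l) ∧ ∃ C : ℕ, 1 ≤ C ∧ ∀ᶠ n : ℕ in atTop,
  (∀ l, (n : ℝ) ≤ C * F.X n l ∧ F.X n l ≤ C * n) ∧
  (∀ x : ℤ, |(x : ℝ) - F.xi * n| ≤ 2 * (F.hw * n) → 0 < x ∧ x < n ∧
    ∀ l, (n : ℝ) ≤ C * F.L n l x ∧ (F.L n l x : ℝ) ≤ C * n) ∧
  (∀ (x : ℤ) (l : Option ι), Near F n x →
    1 / 4 ≤ wd (la5 F l) (F.X n l) (F.L n l x).toNat) ∧
  ∀ (x : ℤ) (l : Option ι), 0 < F.L n l x → wd (la5 F l) (F.X n l) (F.L n l x).toNat ≠ 0 →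
    |(x : ℝ) - F.xi * n| ≤ 2 * (F.hw * n) ∧ (F.L n l x : ℝ) ≤ 3 * F.X n l

/-- [TC loc] Proof: compare `CM/P/win.lean`. `t l = u l * xi + b l ≥ 1000 |u l| hw > 0` (`F.hth`), so
`la5 = t/(|u| hw) ≥ 1000`, `la4 = 4 la5`. `L n l x = X n l + u l (x - xi n)`, `X n l = t l n + c l`.
If `|x - xi n| ≤ 2 hw n`: `x > 0` and `x < n` by `hxi0`, `hxi1`; `|L - t n| ≤ 2 |u| hw n + |c| ≤ t n/500 + |c|`.
Third claim: `|L/X - 1| ≤ |u| hw n/(2 X) ≤ 0.505/la5` for large `n` (`X ~ t n`), so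
`la5 |log (L/X)| ≤ 0.52` and `tri ≥ 0.48`. Fourth claim: `|log (L/X)| < 1/la5 ≤ 1/1000`, so
`|u| |x - xi n| = |L - X| ≤ 1.001 X/la5 ≤ 1.01 |u| hw n`, and `L ≤ X exp(1/1000) ≤ 3 X`. -/
def S_loc : Prop := R_loc

/-- Location of the windows of a block. -/
def R_lob : Prop := ∀ (ι : Type) [Fintype ι] [DecidableEq ι] (D : ℕ) (F : Fam ι D) (k : ℕ),
  Blk F k → ∀ᶠ N : ℕ in atTop, ∀ n ∈ Ioc N (N + N / k), ∀ (x : ℤ) (l : Option ι), 0 < F.L n l x →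
  wd (la4 F l) (F.t l * N) (F.L n l x).toNat ≠ 0 → Near F n x ∧ (F.L n l x : ℝ) ≤ 3 * (F.t l * N) ∧
    0 < x ∧ x < n ∧ ∀ l', |(F.L n l' x : ℝ) / (F.t l' * N) - 1| ≤ 1 / 100

/-- [TC lob] Proof: `L n l x = u (x - xi n) + t n + c`. `wd ≠ 0` gives `|log (L/(t N))| < 1/la4 ≤ 1/4000`, so
`|L - t N| ≤ 1.001 t N/la4 = 1.001 |u| hw N/4`; `0 ≤ t (n - N) ≤ t N/k ≤ |u| hw N/8` (`Blk`), so
`|u| |x - xi n| ≤ (0.2503 + 0.125) |u| hw N + |c| ≤ 0.4 |u| hw N` for large `N`, and `N ≤ n`. `0 < x < n` by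
`hxi0`, `hxi1`. Last claim: `L' = t' n + c' + u' (x - xi n)`, `|u'| hw ≤ t'/1000`, `(n - N)/N ≤ 1/k ≤ |u'| hw/(8 t')
≤ 1/8000`, `n ≤ 2N`, so `|L'/(t' N) - 1| ≤ 1/8000 + |c'|/(t' N) + 1/1000 ≤ 1/100` for large `N`. -/
def S_lob : Prop := R_lob

/-! ### Distribution and mass of the windowed primes -/

/-- The Bombieri-Vinogradov theorem for the windows. -/
def R_bvw : Prop := ∀ (lam : ℝ) (U C b A : ℕ), 1 ≤ lam → 1 ≤ U → 1 ≤ C → ∀ᶠ n : ℕ in atTop,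
  ∀ X : ℝ, n ≤ C * X → X ≤ C * n → ∀ c : ℕ → ℕ, (∀ q, (c q).Coprime (U * q)) →
  ∑ q ∈ (Icc 1 ⌊(n : ℝ) ^ (1 / 1000 : ℝ)⌋₊).filter Squarefree, (b : ℝ) ^ q.primeFactors.card *
    er (fun k => thP k * wd lam X k) ⌊3 * X⌋₊ (U * q) (c q) ≤ n / (Real.log n) ^ A

/-- [TC bvw] (uses CM B) Proof: compare `CM/P/bvF.lean`. `R_B` (first part: `BVc CP lam`) with `W = U`,
`ε = 1/4`, exponent `A + 1`, `f = thP`; `X ≥ n/C → ∞`. `n^(1/1000) ≤ X^(1/4)` for large `n`, the terms are `≥ 0`,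
and `X/(log X)^(A+1) ≤ C n/(log X)^(A+1) ≤ n/(log n)^A` for large `n` as `log X ≥ (log n)/2`. -/
def S_bvw : Prop := CM.B.R_B → R_bvw

/-- The masses of the windows. -/
def R_msw : Prop := ∀ (lam : ℝ) (C : ℕ), 1 ≤ lam → 1 ≤ C → ∀ᶠ n : ℕ in atTop, ∀ X : ℝ,
  n ≤ C * X → X ≤ C * n →
  999 / 1000 * (X / lam) ≤ sT (fun k => thP k * wd lam X k) ⌊3 * X⌋₊ ∧
  sT (fun k => thP k * wd lam X k) ⌊3 * X⌋₊ ≤ 1001 / 1000 * (1 + 1 / lam ^ 2) * (X / lam)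

/-- [TC msw] (uses CM M mu, m1) Proof: `R_m1` with `δ = 1/(10000 lam)` and `R_mu`. -/
def S_msw : Prop := CM.M.R_mu → CM.M.R_m1 → R_msw

/-! ### Densities -/

open Classical in
/-- The densities. -/
def R_dn2 : Prop := ∀ (ι : Type) [Fintype ι] [DecidableEq ι] (D : ℕ) (F : Fam ι D), 1 ≤ D →
  ∀ᶠ n : ℕ in atTop, ∀ n' w : ℕ, (Real.log n) ^ 2 ≤ w → w ≤ z0 D n' →
  (∀ l (p : ℕ), p.Prime → w < p → ¬ p ∣ (F.u l).natAbs) ∧
  (∀ i j (p : ℕ), p.Prime → om (Q2 F n w (z0 D n') i j) p ≤ D) ∧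
  (∀ i j, Dens (2 * D) (d2 F n w (z0 D n') i j)) ∧
  (∀ i j, i ≠ j → 1 / 2 * (F.V n n' / (kapD (z0 D n')) ^ 2 * kapD w) ≤
    |(F.u j : ℝ)| * (W (d2 F n w (z0 D n') i j) (PK (2 * D) n') /
      (Nat.totient (F.u j).natAbs : ℝ))) ∧
  (∀ j, |(F.u j : ℝ)| * (W (d2 F n (z0 D n') (z0 D n') j j) (PK (2 * D) n') /
      (Nat.totient (F.u j).natAbs : ℝ)) = F.V n n' / kapD (z0 D n')) ∧ 0 ≤ F.V n n'

/-- [TC dn2] Proof: extend `CM/P/dns.lean` (its lemmas `dQ_prod`, `dG_lt`, `dG_le`, `dQ_cls`, `dns_om_congr`,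
`dns_rho_congr` can be imported). Since `G = L_j * Gc_j` (`F.hG`), for every prime `p ≤ z` the condition
`p ∣ G(y)`, `p ∤ L_j(y)` is `dQ F n j p y`, and `Q2` is contained in it; for `p > z` `Q2` is empty. So
`om Q2 p ≤ om (dQ F n j) p ≤ D`, `rhoW Q2 p ≤ rhoW (dQ) p`, which gives `Dens (2D)` (`dQ_cls`, `Cls.dens`,
`rhoW ≥ 0`). For large `n`, `w ≥ (log n)^2` is larger than all `|u l|`: first claim. Let `z = z0 D n'`, `i ≠ j`. Put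
`om G = om (p ∣ G)`, `N0 ≤ n`. For `p ≤ w`: `Q2` is `dQ F n j`, and as in `dns`, with `r p = 1 - 1/p` if `p ∣ u j`,
else `1`: `(1 - om G/p) r p = (1 - d2 p)(1 - 1/p)`. For `w < p ≤ z`: `p ∤ u i, u j` (so `r p = 1`) and `L_i`, `L_j` have
exactly one root modulo `p` each, at which `p ∣ G`. If `p` does not divide the determinant
`u i * v j - u j * v i` the two roots are different and `om Q2 p = om G - 2`; since `om G ≥ 1` (in fact `≥ 2`),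
`1 - d2 p = (p + 1 - om G)/(p - 1) ≥ p (p - om G)/(p - 1)^2 = (1 - om G/p)/(1 - 1/p)^2`
(the difference of the two sides times `(p-1)^2` is `om G - 1 ≥ 0`). If `p` divides the determinant
the roots coincide and `om Q2 p = om G - 1`:
`1 - d2 p = (p - om G)/(p - 1) = (1 - om G/p)/(1 - 1/p)^2 * (1 - 1/p)`. Multiply over `p ≤ z`:
`W (d2) PK * κ(w) * (κ(z)/κ(w))^2 ≥ V * ∏ r * ∏_{w < p ≤ z, p ∣ det} (1 - 1/p)`, i.e.
`W (d2) PK ≥ V * (φ(|u j|)/|u j|) * κ(w)/κ(z)^2 * ∏_{..}` (`totient_div`, all prime factors of `u j` are `≤ w`), and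
the last product is `≥ 1 - ∑_{p ∣ det, p > w} 1/p ≥ 1/2`: the determinant is not `0` (`F.hdet`), of absolute
value `≤ C n`, so it has at most `2 log n` prime factors and each `1/p ≤ 1/(log n)^2`. (All factors are
`≥ 0`: `om G ≤ p` by `dG_lt`.) The statement for `w = z`, `i = j`: then the condition at every `p ≤ z` is
`dQ F n j` and the computation is the one in `dns` (it needs that the prime factors of `u j` are `≤ z`). -/
def S_dn2 : Prop := R_dn2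

/-! ### The general expansion -/

open Classical in
/-- The general expansion for the pair `i`, `j`. -/
def R_ap2 : Prop := ∀ (ι κ : Type) [Fintype ι] [DecidableEq ι] [Fintype κ] [DecidableEq κ]
  [Nonempty κ] (D : ℕ) (F : Fam ι D) (e : κ → Option ι), Function.Injective e →
  ∀ (B0 B A : ℕ), 1 ≤ D → 1 ≤ B0 → ∃ b A' : ℕ, ∀ᶠ n : ℕ in atTop, ∀ (n' : ℕ) (P : Finset ℕ),
  Par2 F B0 n n' P → ∀ (i j : Option ι) (w : ℕ), (Real.log n) ^ 2 ≤ w → w ≤ z0 D n' →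
  ∀ Ff : (ℕ → ℝ) → ℝ, RepB (PK (2 * D) n') (fun T => ∏ p ∈ T, p ≤ lev (2 * D) n' ^ 3) Ff →
  ∀ (a : ℕ → ℝ) (N : ℕ), 0 ≤ sT a N → sT a N ≤ n * Real.log n →
  (∀ c : ℕ → ℕ, (∀ q, (c q).Coprime ((F.u j).natAbs * q)) →
    ∑ q ∈ (Icc 1 ⌊(n : ℝ) ^ (1 / 1000 : ℝ)⌋₊).filter Squarefree, (b : ℝ) ^ q.primeFactors.card *
      er a N ((F.u j).natAbs * q) (c q) ≤ n / (Real.log n) ^ A') →
  ∀ g : (PJf P → Option κ) → ℝ, Wt2 n B e i j g →
  |∑ k ∈ (Icc 1 N).filter (fun k : ℕ => F.u j ∣ (k : ℤ) - F.v n j),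
      a k * Ff (r2 F n w (z0 D n') i j (((k : ℤ) - F.v n j) / F.u j)) *
        ZI (DE F e n P) g (((k : ℤ) - F.v n j) / F.u j) ^ 2 -
    sT a N / (Nat.totient (F.u j).natAbs : ℝ) * Ff (d2 F n w (z0 D n') i j) * qf g| ≤
  n / (Real.log n) ^ A

/-- [TC ap2] (uses CM G gen, W pr, dn2) Proof: an adaptation of `CM/P/app.lean`; copy it. `G.R_gen` with
`P1 = PK (2D) n'` (the primes `≤ z`, `mem_PK`; here this set is disjoint from `P`), `D = DE F e n P`,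
`Q = Q2 F n w z i j`, `Al k = (e k ≠ i ∧ e k ≠ j)`, `u = F.u j`, `v = F.v n j`, `K0 = D`, `Y0 = lev (2D) n' ^ 3`,
`ρ = d2 F n w z i j` exactly the `rhoW` (so the hypotheses with `X1 = ∅` are trivial; `z < p` does not occur for
`p ∈ P1`), `Y = ⌊n^(1/5000)⌋₊`, `r = 2 log n`. A `RepB` function is a `RepC` function. `GH`: `hD` from `Dl_loc`
(no prime `> z` divides any `u`, first part of `R_dn2`), `hcop` from `Dl_cop` (`e` injective and `Par2.hdet`), `hnd`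
from `hdet` (`e k ≠ j`), `hQ` periodicity (`dvd_eval_congr`), `hQu` from the definition of `Q2`, `hex` since
`Q2` contains `p ≤ z`, `hom` from `R_dn2`. Errors: the first is `3 B^2 ∑_{q ≤ Y^2 Y0} (6|κ|D)^ω(q) E q` and
`Y^2 Y0 ≤ n^(4/10000 + 1/10000) ≤ n^(1/1000)`: `b = 6 |κ| D`, `A' = A + 1`. The second as in `app`, with
`X1.card = 0` and `∏_{P1} (1 + d2 p) ≤ ∏_{p ≤ n} (1 + 2D/(p-1)) ≤ C (log n)^(2D)` (`Dens.le`). -/
def S_ap2 : Prop := CM.G.R_gen → CM.W.R_pr → R_dn2 → R_ap2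

/-! ### Pointwise inequalities -/

open Classical in
/-- Pointwise inequalities for the lower bound. -/
def R_pw2 : Prop := ∀ (ι : Type) [Fintype ι] [DecidableEq ι] (D : ℕ) (F : Fam ι D)
  (k B0 B1 : ℕ), Blk F k → 1 ≤ D → 1 ≤ B0 → 3 ≤ B1 → ∀ᶠ N : ℕ in atTop,
  ∀ n ∈ Ioc N (N + N / k), ∀ (n' : ℕ) (P : Finset ℕ), Par2 F B0 n n' P →
  ((Real.log n) ^ 2 ≤ wN B1 N ∧ wN B1 N ≤ z0 D n') ∧
  ∀ Fp Fm, Pre D n' Fp Fm → ∀ (i j : Option ι) (x : ℤ), sq F N j (F.L n j x).toNat ≠ 0 →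
  (kapD (wN B1 N))⁻¹ * Fm (r2 F n (wN B1 N) (z0 D n') i j x) ≤
    Lw (wN B1 N) (F.L n i x).toNat * Fm (r2 F n (wN B1 N) (z0 D n') i j x) ∧
  thP (F.L n i x).toNat * Fm (r2 F n (wN B1 N) (z0 D n') i j x) ≤
    if F.Rg n (z0 D n') x then thP (F.L n i x).toNat else 0

/-- [TC pw2] (uses loc, lob) Proof: `n ≤ 2 N`, so `w = wN B1 N ≥ (log N)^3 - 1 ≥ (log (2N))^2 ≥ (log n)^2`, and
`z ≥ n^(1/B0) ≥ (log N)^B1` for large `N`. Let `sq ≠ 0`: `p_j = (L n j x).toNat` is a prime (`thP`), so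
`L n j x = p_j > 0`; by `R_lob`, `Near F n x`, and by `R_loc` all values `L n l x` are `≥ n/C > z` for large `N`
(`z ≤ lev ≤ n^(1/10000)`, `Par2.hlev`). Write `ρ = r2 F n w z i j x`; all its values are `0` or `1`, and
`Fm ρ ≤ W ρ (PK (2D) n')` (`Pre.pt`).
First claim: if no prime `≤ w` divides `L_i(x)` then `Lw w _ = κ(w)^(-1)` (`(L n i x).toNat = L n i x > 0`) and the
two sides are equal. Otherwise some prime `p ≤ w` divides `L_i(x)`, hence `G(x)` (`F.hG`), and `p ∤ L_j(x) = p_j`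
since `p_j > z ≥ w ≥ p`; so `Q2` holds at `p`, `ρ p = 1`, `p ∈ PK (2D) n'`, `W ρ = 0`, `Fm ρ ≤ 0`, and the right side is
`0` (`Lw = 0`), the left side is `≤ 0` (`κ(w) > 0`).
Second claim: if `thP (L_i x) = 0` both sides are `0`. Otherwise `L_i(x)` is a prime `> z`; for a prime `p ≤ z`:
`ρ p = 1` iff `p ∣ G(x)`. If `Rg`: `W ρ ≤ 1`, `thP ≥ 0`. If not: `W ρ = 0`, `Fm ρ ≤ 0`. -/
def S_pw2 : Prop := R_loc → R_lob → R_pw2

/-! ### The model sum -/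

/-- The lower bound for the model sum. -/
def R_md : Prop := ∀ (ι κ : Type) [Fintype ι] [DecidableEq ι] [Fintype κ] [DecidableEq κ]
  [Nonempty κ] (D : ℕ) (F : Fam ι D) (e : κ → Option ι), Function.Injective e →
  ∀ (k B0 B B1 A : ℕ), Blk F k → 1 ≤ D → 1 ≤ B0 → 3 ≤ B1 → ∀ᶠ N : ℕ in atTop,
  ∀ n ∈ Ioc N (N + N / k), ∀ (n' : ℕ) (P : Finset ℕ), Par2 F B0 n n' P →
  ∀ Fp Fm, Pre D n' Fp Fm → ∀ (i j : Option ι), i ≠ j → ∀ g : (PJf P → Option κ) → ℝ,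
  Wt2 n B e i j g → 0 ≤ qf g ∧
  1 / 20 * (F.hw * n * (F.V n n' / (kapD (z0 D n')) ^ 2)) * qf g - n / (Real.log n) ^ A ≤
    ∑ x ∈ Ioo 0 n, sq F N j (F.L n j x).toNat * (Lw (wN B1 N) (F.L n i x).toNat *
      (Fm (r2 F n (wN B1 N) (z0 D n') i j x) * ZI (DE F e n P) g x ^ 2))

/-- [TC md] (uses loc, lob, bvw, msw, dn2, ap2, pw2, CM F cnv) Proof: `X = t j * N`, `n/2 ≤ N ≤ n`. By `R_pw2` (first claim;
terms with `sq = 0` vanish; `ZI^2 ≥ 0`, `sq ≥ 0`) the sum is at least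
`κ(w)^(-1) ∑_x sq (L_j x) (Fm (r2 ..) ZI^2)`. By `CM.F.R_cnv` (`a = sq F N j`, `a 0 = 0`, `N' = ⌊3 X⌋₊`: if `a ≠ 0` then
`L > 0`, and `R_lob`, `R_loc` give `0 < x < n`, `L ≤ 3 X`) the sum is the one in `R_ap2` with `Ff = Fm`, `a = sq F N j`;
`R_bvw` with `lam = la4 F j`, `U = |u j|` and the `b, A'` of `R_ap2` (exponent `A + 1`; first choose these), `C` large
(finitely many `j`; `n ≤ C t j N`); `sT ≤ 1.01 * X/la4 * (..) ≤ n log n`. So it is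
`sT/φ(|u j|) * Fm (d2) * qf g ± n/(log n)^(A+1)`, and `κ(w)^(-1) ≤ C' log w ≤ log n` (`mertens`, `MT/Mertens.lean`:
`1 ≤ 1000 κ(w) log w`, so `κ(w)^(-1) ≤ 1000 log w ≤ log n` for large `N`). Main term: `Fm (d2) ≥ 0.999 W (d2)` (`Pre.mt`,
`Dens`), `sT ≥ 0.999 X/la4 = 0.999 t j N |u j| hw/(4 t j) ≥ 0.12 |u j| hw n` (`N ≥ n/2`, all `≥ 0`),
`|u j| W (d2)/φ(|u j|) ≥ (1/2) V κ(w)/κ(z)^2` (`R_dn2`, `W(d2) ≥ 0`): total
`κ(w)^(-1) * 0.12 * 0.999 * (1/2) * hw n V κ(w)/κ(z)^2 * qf g ≥ (1/20) ..`. `qf g ≥ 0`: `cm_S0_qf` in `CM/P/S0.lean`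
(for the index type `κ`; `|κ| + 1 ≤ z < p` for large `N`). -/
def S_md : Prop := R_loc → R_lob → R_bvw → R_msw → R_dn2 → R_ap2 → R_pw2 → CM.F.R_cnv → R_md

/-! ### The expansion of the error -/

/-- The expansion of the difference between the pair sum and the model sum. -/
def R_ex : Prop := ∀ (ι κ : Type) [Fintype ι] [DecidableEq ι] [Fintype κ] [DecidableEq κ]
  [Nonempty κ] (D : ℕ) (F : Fam ι D) (e : κ → Option ι), Function.Injective e →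
  ∀ (k B0 B B1 : ℕ), Blk F k → 1 ≤ D → 1 ≤ B0 → 3 ≤ B1 → ∀ᶠ N : ℕ in atTop,
  ∀ n ∈ Ioc N (N + N / k), ∀ (n' : ℕ) (P : Finset ℕ), Par2 F B0 n n' P →
  ∀ Fp Fm, Pre D n' Fp Fm → ∀ (i j : Option ι), i ≠ j → ∀ g : (PJf P → Option κ) → ℝ,
  Wt2 n B e i j g →
  |∑ x ∈ Ioo 0 n, sq F N j (F.L n j x).toNat *
      ((thP (F.L n i x).toNat - Lw (wN B1 N) (F.L n i x).toNat) *
        (Fm (r2 F n (wN B1 N) (z0 D n') i j x) * ZI (DE F e n P) g x ^ 2))| ≤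
    3 * B ^ 2 * ErS F N (wN B1 N) n (6 * Fintype.card κ) i j

/-- [TC ex] (uses loc, lob, CM G es1) Proof: `quad_expandI` (`MT/ExpandI.lean`) with `M = 0`, `s = Ioo 0 n`, `Y x = x`,
`ω x = sq .. * (thP - Lw) * Fm (r2 .. x)`, `lam = g`, and the error function
`e' γ = ∑_{T ⊆ PK, ∏ T ≤ lev^3, T disjoint from sp γ} 3 * E (∏ T * nn (supp γ))`, `E q = ∑_{c ∈ Cq F n q i j} |Er F N w n i j q c|`;
it only depends on `supp γ`. Claim: for `γ = join α β`, `g α, g β ≠ 0`: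
`|∑_x [dvI (DE ..) x γ] ω x| ≤ e' γ`. Write `Fm ρ = ∑_T c_T ∏_{p ∈ T} ρ p`, `|c_T| ≤ 1`, `∏ T ≤ lev^3` if `c_T ≠ 0`
(`Pre.rm`). For one `T` (always disjoint from `sp γ ⊆ P`, whose primes are `> z`) let `q = ∏ T * nn (supp γ)`,
squarefree. The condition ``Q2` at all `p ∈ T`, and `dvI x γ`` is periodic modulo `q`; the sum over the `x` satisfying
it is the sum over the classes `c ∈ range q` satisfying it of `Er F N w n i j q c`. Such a `c` satisfies `q ∣ G(c)`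
(for `p ∈ T` by `Q2`; for `p ∈ sp γ`, `p ∣ L_(e k)(c) ∣ G(c)`). If `L_i(c) L_j(c)` is coprime to `q` then `c ∈ Cq`. Otherwise
there is a prime `p ∣ q` dividing `L_i(c)` or `L_j(c)`; it is not in `sp γ` (by `Par2.hdet`, since `e k ≠ i, j`, `Wt2.ne`),
so `p ∈ T`, and by `Q2` it does not divide `L_j(c)` and it is `≤ w`: then `Er = 0`, because for every `x ≡ c (q)`
with `sq (L_j x) ≠ 0`: `p ∣ L_i(x)`, so `Lw w (L_i x) = 0`, and `thP (L_i x) = 0` (`L_i(x) ≥ n/C > w ≥ p` by `R_loc`,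
`R_lob`, so `L_i(x)` is not a prime). This proves the claim. Then `err_sum_leI` (`MT/ExpandI.lean`, `Y = ⌊n^(1/5000)⌋₊`) and
`CM.G.R_es1` (`c = 3|κ|`, `K0 = 1`, `P1 = PK`, `Y0 = lev^3`): the total is at most
`B^2 * 3 ∑_{q ≤ Y Y Y0, squarefree} (6|κ|)^ω(q) E q`, and `Y^2 Y0 ≤ n^(5/10000) ≤ N^(1/1000)` (`n ≤ 2N`, large `N`).
(`ErS` is the sum over all squarefree `q ≤ N^(1/1000)`, all terms `≥ 0`.) -/
def S_ex : Prop := R_loc → R_lob → CM.G.R_es1 → R_ex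

/-! ### The two kinds of sums -/

open Classical in
/-- The lower bound for the pair sum. -/
def R_T2 : Prop := ∀ (ι κ : Type) [Fintype ι] [DecidableEq ι] [Fintype κ] [DecidableEq κ]
  [Nonempty κ] (D : ℕ) (F : Fam ι D) (e : κ → Option ι), Function.Injective e →
  ∀ (k B0 B B1 A : ℕ), Blk F k → 1 ≤ D → 1 ≤ B0 → 3 ≤ B1 → ∀ᶠ N : ℕ in atTop,
  ∀ n ∈ Ioc N (N + N / k), ∀ (n' : ℕ) (P : Finset ℕ), Par2 F B0 n n' P →
  ∀ Fp Fm, Pre D n' Fp Fm → ∀ (i j : Option ι), i ≠ j → ∀ g : (PJf P → Option κ) → ℝ,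
  Wt2 n B e i j g →
  1 / 20 * (F.hw * n * (F.V n n' / (kapD (z0 D n')) ^ 2)) * qf g - n / (Real.log n) ^ A -
      3 * B ^ 2 * ErS F N (wN B1 N) n (6 * Fintype.card κ) i j ≤
    ∑ x ∈ (Ioo 0 n).filter (fun x : ℕ => F.Rg n (z0 D n') x ∧ Near F n x),
      thP (F.L n i x).toNat * thP (F.L n j x).toNat * ZI (DE F e n P) g x ^ 2

/-- [TC T2] (uses lob, pw2, md, ex) Proof: for each `x` with `sq (L_j x) ≠ 0`: `Near F n x` (`R_lob`, `L_j(x) > 0` as it is a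
prime), `sq (L_j x) = thP * wd ≤ thP (L_j x)` (`0 ≤ wd ≤ 1`), and by the second claim of `R_pw2`
`sq (L_j x) thP (L_i x) Fm (r2) ZI^2 ≤ [Rg] thP (L_i x) thP (L_j x) ZI^2`. Sum over `x`: the right side is at least
`∑_x sq (L_j x) thP (L_i x) (Fm ZI^2)`, which is the sum in `R_md` plus the sum in `R_ex` (without absolute
value). -/
def S_T2 : Prop := R_lob → R_pw2 → R_md → R_ex → R_T2

open Classical in
/-- The upper bound for the sum with one prime. -/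
def R_U1 : Prop := ∀ (ι κ : Type) [Fintype ι] [DecidableEq ι] [Fintype κ] [DecidableEq κ]
  [Nonempty κ] (D : ℕ) (F : Fam ι D) (e : κ → Option ι), Function.Injective e →
  ∀ (B0 B A : ℕ), 1 ≤ D → 1 ≤ B0 → ∀ᶠ n : ℕ in atTop, ∀ (n' : ℕ) (P : Finset ℕ),
  Par2 F B0 n n' P → ∀ Fp Fm, Pre D n' Fp Fm → ∀ (l : Option ι) (g : (PJf P → Option κ) → ℝ),
  Wt2 n B e l l g →
  ∑ x ∈ (Ioo 0 n).filter (fun x : ℕ => F.Rg n (z0 D n') x ∧ Near F n x),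
      thP (F.L n l x).toNat * ZI (DE F e n P) g x ^ 2 ≤
    5 * (F.hw * n * (F.V n n' / kapD (z0 D n'))) * qf g + n / (Real.log n) ^ A

/-- [TC U1] (uses loc, bvw, msw, dn2, ap2, CM F cnv) Proof: `a k = thP k * wd (la5 F l) (F.X n l) k`, `X = F.X n l`,
`N' = ⌊3 X⌋₊`, `w = z = z0 D n'` (`≥ (log n)^2` for large `n`), `i = j = l`. By the third claim of `R_loc`,
`thP (L_l x) ≤ 4 a (L_l x)` for `Near` points, and `[Rg] ≤ Fp (r2 F n z z l l x)` if `thP (L_l x) ≠ 0`: then `L_l(x)` is a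
prime `> z`, and no prime `p ≤ z` divides `G(x)`, so all `r2 = 0`, `W = 1 ≤ Fp` (`Pre.pt`). All terms `a Fp ZI^2` are `≥ 0`
(`Fp ρ ≥ W ρ ≥ 0`). So the left side is at most `4 ∑_{x ∈ Ioo 0 n} a (L_l x) (Fp (r2) ZI^2)`, which by `R_cnv`
(`R_loc`: if `a ≠ 0` then `0 < x < n`, `L ≤ 3X`) and `R_ap2` (`Ff = Fp`), `R_bvw`, is
`4 (sT/φ(|u|) Fp (d2) qf g ± n/(log n)^(A+1))`; `Fp (d2) ≤ 1.001 W (d2)` (`Pre.mt`), `sT ≤ 1.001 (1 + 10^(-6)) X/la5`,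
`X/la5 = (t n + c) |u| hw/t ≤ 1.001 |u| hw n`, and `|u| W(d2)/φ(|u|) = V/κ(z)`: `4 * 1.001^3 * 1.00001 ≤ 5`. (`qf g ≥ 0` as
in `md`.) -/
def S_U1 : Prop := R_loc → R_bvw → R_msw → R_dn2 → R_ap2 → CM.F.R_cnv → R_U1

/-- The size of the weights at the points without small prime factors. -/
def R_wm2 : Prop := ∀ (ι κ : Type) [Fintype ι] [DecidableEq ι] [Fintype κ] [DecidableEq κ]
  [Nonempty κ] (D : ℕ) (F : Fam ι D) (e : κ → Option ι),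
  ∀ (B0 B : ℕ), 1 ≤ D → 1 ≤ B0 → ∀ᶠ n : ℕ in atTop, ∀ (n' : ℕ) (P : Finset ℕ),
  Par2 F B0 n n' P → ∀ g : (PJf P → Option κ) → ℝ, (∀ α, |g α| ≤ B) → ∀ x : ℤ,
  F.Rg n (z0 D n') x → Near F n x →
  (∀ l, thP (F.L n l x).toNat ≤ 2 * Real.log n) ∧
  ZI (DE F e n P) g x ^ 2 ≤ (2 ^ (Fintype.card κ * (B0 + 1)) * (B : ℝ)) ^ 2

/-- [TC wm2] (uses loc) Proof: as `CM/P/wm.lean`. For `k ∈ κ`, `m = L_(e k)(x)` satisfies `0 < m ≤ C n`
(`R_loc`), `m ∣ G(x)`, so `m` has no prime factor `≤ z`, and at most `B0 + 1` prime factors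
(`z^(B0+2) ≤ m ≤ C n ≤ C z^B0` is impossible for large `n`); `abs_ZI_le` (`MT/Zb.lean`). `thP m ≤ log m ≤ log (C n)`. -/
def S_wm2 : Prop := R_loc → R_wm2

end Pool.Agent.TC.M
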