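import Pool.Agent.Lib.MP_0da313_nt.CM.Main
import Pool.Agent.Lib.MP_0da313_nt.TC.F
import Pool.Agent.Lib.MP_0da313_nt.TC.P.wpg
import Pool.Agent.Lib.MP_0da313_nt.TC.P.tz
import Pool.Agent.Lib.MP_0da313_nt.TC.P.tsup
import Pool.Agent.Lib.MP_0da313_nt.TC.P.bt
import Pool.Agent.Lib.MP_0da313_nt.TC.P.loc
import Pool.Agent.Lib.MP_0da313_nt.TC.P.lob
import Pool.Agent.Lib.MP_0da313_nt.TC.P.bvw
import Pool.Agent.Lib.MP_0da313_nt.TC.P.msw
import Pool.Agent.Lib.MP_0da313_nt.TC.P.dn2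
import Pool.Agent.Lib.MP_0da313_nt.TC.P.ap2
import Pool.Agent.Lib.MP_0da313_nt.TC.P.pw2
import Pool.Agent.Lib.MP_0da313_nt.TC.P.md
import Pool.Agent.Lib.MP_0da313_nt.TC.P.ex
import Pool.Agent.Lib.MP_0da313_nt.TC.P.T2
import Pool.Agent.Lib.MP_0da313_nt.TC.P.U1
import Pool.Agent.Lib.MP_0da313_nt.TC.P.wm2
import Pool.Agent.Lib.MP_0da313_nt.TC.P.sys
import Pool.Agent.Lib.MP_0da313_nt.TC.P.nu
import Pool.Agent.Lib.MP_0da313_nt.TC.P.cn2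
import Pool.Agent.Lib.MP_0da313_nt.TC.P.cf
import Pool.Agent.Lib.MP_0da313_nt.TC.P.sg
import Pool.Agent.Lib.MP_0da313_nt.TC.P.pe
import Pool.Agent.Lib.MP_0da313_nt.TC.P.bk
import Pool.Agent.Lib.MP_0da313_nt.TC.P.fin2

set_option autoImplicit false

/-!
Project TC: the assembly.
-/

namespace Pool.Agent.TC

/-! ### Section W -/

namespace W

theorem h_wpg : R_wpg := p_wpg CM.W.h_pr CM.W.h_bp

theorem h_tz : R_tz := p_tz

theorem h_tsup : R_tsup := p_tsup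

theorem h_bt : R_bt := p_bt

end W

/-! ### Section M -/

namespace M

theorem h_loc : R_loc := p_loc

theorem h_lob : R_lob := p_lob

theorem h_bvw : R_bvw := p_bvw CM.B.h_B

theorem h_msw : R_msw := p_msw CM.M.h_mu CM.M.h_m1

theorem h_dn2 : R_dn2 := p_dn2

theorem h_ap2 : R_ap2 := p_ap2 CM.G.h_gen CM.W.h_pr h_dn2

theorem h_pw2 : R_pw2 := p_pw2 h_loc h_lob

theorem h_md : R_md := p_md h_loc h_lob h_bvw h_msw h_dn2 h_ap2 h_pw2 CM.F.h_cnv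

theorem h_ex : R_ex := p_ex h_loc h_lob CM.G.h_es1

theorem h_T2 : R_T2 := p_T2 h_lob h_pw2 h_md h_ex

theorem h_U1 : R_U1 := p_U1 h_loc h_bvw h_msw h_dn2 h_ap2 CM.F.h_cnv

theorem h_wm2 : R_wm2 := p_wm2 h_loc

end M

/-! ### Section F -/

namespace F

theorem h_sys : R_sys := p_sys W.h_wpg W.h_tz W.h_tsup W.h_bt CM.W.h_pr CM.L.h_P

theorem h_nu : R_nu := p_nu

theorem h_cn2 : R_cn2 := p_cn2 h_sys h_nu M.h_loc M.h_T2 M.h_U1 M.h_wm2 M.h_dn2 CM.S.h_pre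

/-- The final theorem, from the interface. -/
theorem h_fin2 (h_EX : TC.R_EX) : R_fin2 :=
  p_fin2 h_EX h_cn2 p_cf p_sg p_pe p_bk CM.L.h_fam

end F

end Pool.Agent.TC
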